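import Mathlib

/-! Stable multi-matchings of a marked point set. -/

namespace Q291.MM

open MeasureTheory Set

/-- The vertex `x` is willing to link to `y`: it has fewer than `D x` edges in `G`, or it has an
edge of length greater than the distance from `x` to `y`. -/
def Willing {X : Type*} [Dist X] (D : X → ℕ) (G : SimpleGraph X) (x y : X) : Prop :=
  (G.neighborSet x).encard < D x ∨ ∃ z, G.Adj x z ∧ dist x y < dist x z

/-- `G` is a stable multi-matching for the degrees `D`: every `x` has at most `D x` edges, and no
two different non-adjacent vertices are both willing to link to each other. -/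
def IsStable {X : Type*} [Dist X] (D : X → ℕ) (G : SimpleGraph X) : Prop :=
  (∀ x, (G.neighborSet x).encard ≤ D x) ∧
    ∀ x y, x ≠ y → ¬ G.Adj x y → ¬ (Willing D G x y ∧ Willing D G y x)

/-- `G` has an infinite connected component. -/
def HasInfiniteComponent {X : Type*} (G : SimpleGraph X) : Prop :=
  ∃ x, {y | G.Reachable x y}.Infinite

/-- `Q` is a homogeneous Poisson point process of intensity `1` on `ℝ ^ d` and, given `Q`, the
degrees `D ω x` of its points `x` are independent with law `μ`; in other words, the points
`(x, D ω x)` form a Poisson process on `ℝ ^ d × ℕ` whose intensity measure is the product of the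
Lebesgue measure and `μ`: the number of these points in a measurable set is a random variable, it
has the Poisson law with mean the intensity measure of the set if this is finite, and the numbers
of points in pairwise disjoint sets are independent. -/
structure IsMarkedPoisson {Ω : Type*} [MeasurableSpace Ω] (P : Measure Ω) {d : ℕ}
    (μ : Measure ℕ) (Q : Ω → Set (EuclideanSpace ℝ (Fin d)))
    (D : Ω → EuclideanSpace ℝ (Fin d) → ℕ) : Prop where
  measurable_count : ∀ B : Set (EuclideanSpace ℝ (Fin d) × ℕ), MeasurableSet B →
    Measurable (fun ω => {x ∈ Q ω | (x, D ω x) ∈ B}.encard)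
  law_count : ∀ B : Set (EuclideanSpace ℝ (Fin d) × ℕ), MeasurableSet B →
    (volume.prod μ) B ≠ ⊤ → ∀ n : ℕ, P {ω | {x ∈ Q ω | (x, D ω x) ∈ B}.encard = (n : ℕ∞)} =
      ENNReal.ofReal (Real.exp (-((volume.prod μ) B).toReal) *
        ((volume.prod μ) B).toReal ^ n / (n.factorial : ℝ))
  indep_count : ∀ (m : ℕ) (B : Fin m → Set (EuclideanSpace ℝ (Fin d) × ℕ)),
    (∀ i, MeasurableSet (B i)) → Pairwise (fun i j => Disjoint (B i) (B j)) →
    ProbabilityTheory.iIndepFun (fun i ω => {x ∈ Q ω | (x, D ω x) ∈ B i}.encard) P

end Q291.MM
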