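import Pool.Agent.Q291.MM.Defs

/-! Existence of stable multi-matchings of locally finite sets. -/

namespace Q291.MM

open Set Filter

variable {X : Type*} [PseudoMetricSpace X]

/-- `x` is saturated in `G` within the distance of `y` -/
def Sat (D : X → ℕ) (G : SimpleGraph X) (x y : X) : Prop :=
  (G.neighborSet x).encard = D x ∧ ∀ z, G.Adj x z → dist x z ≤ dist x y

lemma Sat.not_willing {D : X → ℕ} {G : SimpleGraph X} {x y : X} (h : Sat D G x y) :
    ¬ Willing D G x y := by
  rintro (h1 | ⟨z, hz, h2⟩)
  · rw [h.1] at h1
    exact lt_irrefl _ h1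
  · exact absurd (h.2 z hz) (not_le.2 h2)

/-- Greedy matching along a finite set of pairs. -/
lemma exists_finite (D : X → ℕ) (S : Finset (X × X)) :
    ∃ G : SimpleGraph X, (∀ x, (G.neighborSet x).encard ≤ D x) ∧
      (∀ x y, G.Adj x y → (x, y) ∈ S ∨ (y, x) ∈ S) ∧
      (∀ x y, (x, y) ∈ S → x ≠ y → G.Adj x y ∨ Sat D G x y ∨ Sat D G y x) := by
  classical
  induction S using Finset.induction_on_max_value (fun q : X × X => dist q.1 q.2) with
  | empty =>
    refine ⟨⊥, fun x => ?_, fun x y h => absurd h (by simp), fun x y h => absurd h (by simp)⟩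
    simp
  | insert a S ha hmax ih =>
    obtain ⟨G, hG1, hG2, hG3⟩ := ih
    obtain ⟨u, v⟩ := a
    have hle : ∀ x y, G.Adj x y → dist x y ≤ dist u v := by
      intro x y hxy
      rcases hG2 x y hxy with h | h
      · exact hmax _ h
      · rw [dist_comm]; exact hmax _ h
    by_cases huv : u = v ∨ G.Adj u v
    · refine ⟨G, hG1, fun x y h => ?_, fun x y h hne => ?_⟩
      · rcases hG2 x y h with h | h
        · exact Or.inl (Finset.mem_insert_of_mem h)
        · exact Or.inr (Finset.mem_insert_of_mem h)
      · rcases Finset.mem_insert.1 h with h | h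
        · rw [Prod.mk.injEq] at h
          obtain ⟨rfl, rfl⟩ := h
          rcases huv with h | h
          · exact absurd h hne
          · exact Or.inl h
        · exact hG3 x y h hne
    push Not at huv
    by_cases hu : (G.neighborSet u).encard = D u
    · refine ⟨G, hG1, fun x y h => ?_, fun x y h hne => ?_⟩
      · rcases hG2 x y h with h | h
        · exact Or.inl (Finset.mem_insert_of_mem h)
        · exact Or.inr (Finset.mem_insert_of_mem h)
      · rcases Finset.mem_insert.1 h with h | h
        · rw [Prod.mk.injEq] at h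
          obtain ⟨rfl, rfl⟩ := h
          exact Or.inr (Or.inl ⟨hu, fun z hz => hle _ _ hz⟩)
        · exact hG3 x y h hne
    by_cases hv : (G.neighborSet v).encard = D v
    · refine ⟨G, hG1, fun x y h => ?_, fun x y h hne => ?_⟩
      · rcases hG2 x y h with h | h
        · exact Or.inl (Finset.mem_insert_of_mem h)
        · exact Or.inr (Finset.mem_insert_of_mem h)
      · rcases Finset.mem_insert.1 h with h | h
        · rw [Prod.mk.injEq] at h
          obtain ⟨rfl, rfl⟩ := h
          refine Or.inr (Or.inr ⟨hv, fun z hz => ?_⟩)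
          rw [dist_comm y x]
          exact hle _ _ hz
        · exact hG3 x y h hne
    -- add the edge
    have hulv : (G.neighborSet u).encard < D u := lt_of_le_of_ne (hG1 u) hu
    have hvlv : (G.neighborSet v).encard < D v := lt_of_le_of_ne (hG1 v) hv
    let G' : SimpleGraph X := G ⊔ SimpleGraph.fromEdgeSet {s(u, v)}
    have hadj : ∀ x y, G'.Adj x y ↔ G.Adj x y ∨ (x = u ∧ y = v) ∨ (x = v ∧ y = u) := by
      intro x y
      simp only [G', SimpleGraph.sup_adj, SimpleGraph.fromEdgeSet_adj, Set.mem_singleton_iff,
        Sym2.eq_iff]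
      constructor
      · rintro (h | ⟨h, _⟩)
        · exact Or.inl h
        · exact Or.inr h
      · rintro (h | h)
        · exact Or.inl h
        · refine Or.inr ⟨h, ?_⟩
          rcases h with ⟨rfl, rfl⟩ | ⟨rfl, rfl⟩
          · exact huv.1
          · exact huv.1.symm
    have hnb : ∀ x, x ≠ u → x ≠ v → G'.neighborSet x = G.neighborSet x := by
      intro x hxu hxv
      ext y
      show G'.Adj x y ↔ G.Adj x y
      rw [hadj]
      constructor
      · rintro (h | ⟨h, _⟩ | ⟨h, _⟩)
        · exact h
        · exact absurd h hxu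
        · exact absurd h hxv
      · exact Or.inl
    have hnbu : G'.neighborSet u = insert v (G.neighborSet u) := by
      ext y
      show G'.Adj u y ↔ y ∈ insert v (G.neighborSet u)
      rw [hadj, Set.mem_insert_iff]
      constructor
      · rintro (h | ⟨_, h⟩ | ⟨h, _⟩)
        · exact Or.inr h
        · exact Or.inl h
        · exact absurd h huv.1
      · rintro (h | h)
        · exact Or.inr (Or.inl ⟨rfl, h⟩)
        · exact Or.inl h
    have hnbv : G'.neighborSet v = insert u (G.neighborSet v) := by
      ext y
      show G'.Adj v y ↔ y ∈ insert u (G.neighborSet v)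
      rw [hadj, Set.mem_insert_iff]
      constructor
      · rintro (h | ⟨h, _⟩ | ⟨_, h⟩)
        · exact Or.inr h
        · exact absurd h.symm huv.1
        · exact Or.inl h
      · rintro (h | h)
        · exact Or.inr (Or.inr ⟨rfl, h⟩)
        · exact Or.inl h
    have hsat : ∀ x y, Sat D G x y → Sat D G' x y := by
      intro x y hs
      have hxu : x ≠ u := by rintro rfl; exact hu hs.1
      have hxv : x ≠ v := by rintro rfl; exact hv hs.1
      refine ⟨by rw [hnb x hxu hxv]; exact hs.1, fun z hz => hs.2 z ?_⟩
      have : z ∈ G'.neighborSet x := hz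
      rw [hnb x hxu hxv] at this
      exact this
    refine ⟨G', fun x => ?_, fun x y h => ?_, fun x y h hne => ?_⟩
    · by_cases hxu : x = u
      · subst hxu
        rw [hnbu]
        calc (insert v (G.neighborSet x)).encard ≤ (G.neighborSet x).encard + 1 :=
              Set.encard_insert_le _ _
          _ ≤ D x := Order.add_one_le_of_lt hulv
      by_cases hxv : x = v
      · subst hxv
        rw [hnbv]
        calc (insert u (G.neighborSet x)).encard ≤ (G.neighborSet x).encard + 1 :=
              Set.encard_insert_le _ _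
          _ ≤ D x := Order.add_one_le_of_lt hvlv
      rw [hnb x hxu hxv]
      exact hG1 x
    · rcases (hadj x y).1 h with h | ⟨rfl, rfl⟩ | ⟨rfl, rfl⟩
      · rcases hG2 x y h with h | h
        · exact Or.inl (Finset.mem_insert_of_mem h)
        · exact Or.inr (Finset.mem_insert_of_mem h)
      · exact Or.inl (Finset.mem_insert_self _ _)
      · exact Or.inr (Finset.mem_insert_self _ _)
    · rcases Finset.mem_insert.1 h with h | h
      · rw [Prod.mk.injEq] at h
        obtain ⟨rfl, rfl⟩ := h
        exact Or.inl ((hadj x y).2 (Or.inr (Or.inl ⟨rfl, rfl⟩)))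
      · rcases hG3 x y h hne with h | h | h
        · exact Or.inl ((hadj x y).2 (Or.inl h))
        · exact Or.inr (Or.inl (hsat x y h))
        · exact Or.inr (Or.inr (hsat y x h))

/-- Existence of a stable multi-matching. -/
theorem exists_stable (D : X → ℕ) (hfin : ∀ (x : X) (r : ℝ), {y | dist x y ≤ r}.Finite) :
    ∃ G : SimpleGraph X, IsStable D G := by
  classical
  choose G hG1 hG2 hG3 using exists_finite D
  let U : Ultrafilter (Finset (X × X)) := Ultrafilter.of atTop
  have hU : (U : Filter (Finset (X × X))) ≤ atTop := Ultrafilter.of_le _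
  let H : SimpleGraph X :=
    { Adj := fun x y => ∀ᶠ S in U, (G S).Adj x y
      symm := ⟨fun x y h => h.mono fun S hS => hS.symm⟩
      loopless := ⟨fun x h => by
        obtain ⟨S, hS⟩ := h.exists
        exact (G S).loopless.irrefl x hS⟩ }
  have hHadj : ∀ x y, H.Adj x y ↔ ∀ᶠ S in U, (G S).Adj x y := fun x y => Iff.rfl
  -- finite sets of neighbours
  have hsub : ∀ (x : X) (F : Finset X), (∀ z ∈ F, H.Adj x z) →
      ∀ᶠ S in (U : Filter (Finset (X × X))), ∀ z ∈ F, (G S).Adj x z := by
    intro x F hF
    rw [Filter.eventually_all_finset]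
    intro z hz
    exact hF z hz
  have hsat : ∀ x y, (∀ᶠ S in (U : Filter (Finset (X × X))), Sat D (G S) x y) →
      Sat D H x y := by
    intro x y h
    -- the neighbour sets are subsets of a fixed finite ball
    obtain ⟨B, hB⟩ : ∃ B : Finset X, ∀ z, z ∈ B ↔ dist x z ≤ dist x y :=
      ⟨(hfin x (dist x y)).toFinset, fun z => by simp⟩
    have h1 : ∀ᶠ S in (U : Filter (Finset (X × X))), ∀ z ∈ B,
        ((G S).Adj x z ↔ H.Adj x z) := by
      rw [Filter.eventually_all_finset]
      intro z hz
      by_cases hz' : H.Adj x z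
      · filter_upwards [(hHadj x z).1 hz'] with S hS
        exact ⟨fun _ => hz', fun _ => hS⟩
      · have : ∀ᶠ S in (U : Filter (Finset (X × X))), ¬ (G S).Adj x z := by
          rw [Ultrafilter.eventually_not]
          exact hz'
        filter_upwards [this] with S hS
        exact ⟨fun h => absurd h hS, fun h => absurd h hz'⟩
    have hnb : ∀ z, H.Adj x z → z ∈ B := by
      intro z hz
      obtain ⟨S, hS1, hS2⟩ := (((hHadj x z).1 hz).and h).exists
      exact (hB z).2 (hS2.2 z hS1)
    obtain ⟨S, hS1, hS2⟩ := (h1.and h).exists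
    have heq : H.neighborSet x = (G S).neighborSet x := by
      ext z
      show H.Adj x z ↔ (G S).Adj x z
      constructor
      · intro hz
        exact (hS1 z (hnb z hz)).2 hz
      · intro hz
        exact (hS1 z ((hB z).2 (hS2.2 z hz))).1 hz
    refine ⟨by rw [heq]; exact hS2.1, fun z hz => (hB z).1 (hnb z hz)⟩
  refine ⟨H, fun x => ?_, fun x y hne hadj hw => ?_⟩
  · by_contra hlt
    push Not at hlt
    have hle : ((D x + 1 : ℕ) : ℕ∞) ≤ (H.neighborSet x).encard := by
      push_cast
      exact Order.add_one_le_of_lt hlt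
    obtain ⟨t, ht, htc⟩ := Set.exists_subset_encard_eq hle
    have htfin : t.Finite := Set.finite_of_encard_eq_coe htc
    obtain ⟨S, hS⟩ := (hsub x htfin.toFinset (fun z hz => ht (by simpa using hz))).exists
    have h1 : t ⊆ (G S).neighborSet x := fun z hz => hS z (by simpa using hz)
    have h2 := Set.encard_le_encard h1
    rw [htc] at h2
    have h3 := h2.trans (hG1 S x)
    have h4 : D x + 1 ≤ D x := by exact_mod_cast h3
    omega
  · have h1 : ∀ᶠ S in (U : Filter (Finset (X × X))), (x, y) ∈ S := by
      apply hU
      filter_upwards [eventually_ge_atTop ({(x, y)} : Finset (X × X))] with S hS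
      exact hS (Finset.mem_singleton_self _)
    have h2 : ∀ᶠ S in (U : Filter (Finset (X × X))), ¬ (G S).Adj x y := by
      rw [Ultrafilter.eventually_not]
      exact hadj
    have h3 : ∀ᶠ S in (U : Filter (Finset (X × X))), Sat D (G S) x y ∨ Sat D (G S) y x := by
      filter_upwards [h1, h2] with S hS1 hS2
      rcases hG3 S x y hS1 hne with h | h | h
      · exact absurd h hS2
      · exact Or.inl h
      · exact Or.inr h
    rw [Ultrafilter.eventually_or] at h3
    rcases h3 with h | h
    · exact (hsat x y h).not_willing hw.1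
    · exact (hsat y x h).not_willing hw.2

end Q291.MM
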