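import Pool.Agent.Q291.MM.Exist

/-! Giants at consecutive scales are joined by stability. -/

namespace Q291.MM

open Set Filter

lemma willing_of_card {X : Type*} [MetricSpace X] {D : X → ℕ} {G : SimpleGraph X} {x y : X}
    {M : ℕ} (h : {z | dist x z ≤ dist x y}.encard ≤ M) (hM : M ≤ D x) : Willing D G x y := by
  by_contra hw
  unfold Willing at hw
  push Not at hw
  obtain ⟨h1, h2⟩ := hw
  have hsub : G.neighborSet x ⊆ {z | dist x z ≤ dist x y} \ {x} := by
    intro z hz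
    refine ⟨h2 z hz, ?_⟩
    rintro rfl
    exact G.loopless.irrefl z hz
  have hx : x ∈ {z | dist x z ≤ dist x y} := by
    show dist x x ≤ dist x y
    rw [dist_self]; exact dist_nonneg
  have h3 := Set.encard_sdiff_singleton_add_one hx
  have hfin : ({z | dist x z ≤ dist x y} \ {x}).encard ≠ ⊤ := by
    intro htop
    rw [htop] at h3
    rw [← h3] at h
    exact absurd h (by simp)
  have h4 := Set.encard_le_encard hsub
  have h5 : (D x : ℕ∞) + 1 ≤ {z | dist x z ≤ dist x y}.encard := by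
    rw [← h3]
    gcongr
    exact h1.trans h4
  have h6 : (D x : ℕ∞) + 1 ≤ (D x : ℕ∞) :=
    h5.trans (h.trans (by exact_mod_cast hM))
  have h7 : D x + 1 ≤ D x := by exact_mod_cast h6
  omega

variable {E : Type*} [NormedAddCommGroup E]

/-- Deterministic criterion for an infinite component. -/
theorem infinite_of_giants (Q : Set E) (D : E → ℕ) (M : ℕ → ℕ) (hmono : Monotone M)
    (hM : ∀ k, k ≤ M k) (K : ℕ)
    (hcount : ∀ k, K ≤ k → {x ∈ Q | ‖x‖ < 2 ^ (k + 3)}.encard ≤ M k)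
    (hgiant : ∀ k, K ≤ k → ∃ x ∈ Q, ‖x‖ < 2 ^ k ∧ M k ≤ D x)
    (G : SimpleGraph Q) (hG : IsStable (fun x : Q => D x) G) : HasInfiniteComponent G := by
  classical
  choose! g hgQ hgn hgD using hgiant
  -- the giants as vertices
  have hball : ∀ (x y : Q) (k : ℕ), K ≤ k → ‖(x : E)‖ < 2 ^ (k + 1) → ‖(y : E)‖ < 2 ^ (k + 1) →
      dist x y < 3 * 2 ^ k → {z : Q | dist x z ≤ dist x y}.encard ≤ M k := by
    intro x y k hk hx hy hxy
    have h1 : (Subtype.val '' {z : Q | dist x z ≤ dist x y}) ⊆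
        {x ∈ Q | ‖x‖ < 2 ^ (k + 3)} := by
      rintro _ ⟨z, hz, rfl⟩
      refine ⟨z.2, ?_⟩
      have hz' : dist (x : E) (z : E) ≤ dist x y := hz
      have h2 : ‖(z : E)‖ ≤ ‖(x : E)‖ + dist (x : E) (z : E) := by
        rw [dist_eq_norm, ← norm_neg ((x : E) - z)]
        calc ‖(z : E)‖ = ‖(x : E) + -((x : E) - z)‖ := by congr 1; abel
          _ ≤ _ := norm_add_le _ _
      have h3 : (2:ℝ) ^ (k + 3) = 8 * 2 ^ k := by ring
      have h4 : (2:ℝ) ^ (k + 1) = 2 * 2 ^ k := by ring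
      rw [h3]
      rw [h4] at hx
      have h5 : (0:ℝ) < 2 ^ k := by positivity
      linarith
    calc {z : Q | dist x z ≤ dist x y}.encard
        = (Subtype.val '' {z : Q | dist x z ≤ dist x y}).encard :=
          (Subtype.val_injective.encard_image _).symm
      _ ≤ _ := Set.encard_le_encard h1
      _ ≤ M k := hcount k hk
  obtain ⟨h, hh⟩ : ∃ h : ℕ → Q, ∀ k (hk : K ≤ k), h k = ⟨g k, hgQ k hk⟩ := by
    refine ⟨fun k => if hk : K ≤ k then ⟨g k, hgQ k hk⟩ else ⟨g K, hgQ K le_rfl⟩, ?_⟩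
    intro k hk
    simp [hk]
  have hval : ∀ k, K ≤ k → ((h k : Q) : E) = g k := fun k hk => by rw [hh k hk]
  have hstep : ∀ k, K ≤ k → G.Reachable (h k) (h (k + 1)) := by
    intro k hk
    by_cases hne : h k = h (k + 1)
    · rw [hne]
    have hk1 : K ≤ k + 1 := by omega
    have hp : (0:ℝ) < 2 ^ k := by positivity
    have hn1 : ‖(h k : E)‖ < 2 ^ k := by rw [hval k hk]; exact hgn k hk
    have hn2 : ‖(h (k + 1) : E)‖ < 2 ^ (k + 1) := by rw [hval _ hk1]; exact hgn _ hk1
    have h2k : (2:ℝ) ^ (k + 1) = 2 * 2 ^ k := by ring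
    have hn1' : ‖(h k : E)‖ < 2 ^ (k + 1) := by rw [h2k]; linarith
    have hd : dist (h k) (h (k + 1)) < 3 * 2 ^ k := by
      show dist (h k : E) (h (k + 1) : E) < 3 * 2 ^ k
      rw [dist_eq_norm]
      calc ‖(h k : E) - h (k + 1)‖ ≤ ‖(h k : E)‖ + ‖(h (k + 1) : E)‖ := norm_sub_le _ _
        _ < 2 ^ k + 2 ^ (k + 1) := add_lt_add hn1 hn2
        _ = 3 * 2 ^ k := by rw [h2k]; ring
    by_cases hadj : G.Adj (h k) (h (k + 1))
    · exact hadj.reachable
    exfalso
    apply hG.2 _ _ hne hadj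
    constructor
    · apply willing_of_card (hball _ _ k hk hn1' hn2 hd)
      show M k ≤ D (h k)
      rw [hval k hk]
      exact hgD k hk
    · apply willing_of_card (hball _ _ k hk hn2 hn1' (by rw [dist_comm]; exact hd))
      show M k ≤ D (h (k + 1))
      rw [hval _ hk1]
      exact (hmono (Nat.le_succ k)).trans (hgD _ hk1)
  have hreach : ∀ j, G.Reachable (h K) (h (K + j)) := by
    intro j
    induction j with
    | zero => rfl
    | succ j ih => exact ih.trans (hstep (K + j) (by omega))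
  refine ⟨h K, ?_⟩
  intro hfin
  -- the degrees are bounded on a finite set
  obtain ⟨B, hB⟩ : ∃ B : ℕ, ∀ y ∈ {y | G.Reachable (h K) y}, D (y : E) ≤ B := by
    obtain ⟨B, hB⟩ := (hfin.image fun y : Q => D (y : E)).bddAbove
    exact ⟨B, fun y hy => hB ⟨y, hy, rfl⟩⟩
  have h1 := hB (h (K + (B + 1))) (hreach (B + 1))
  rw [hval _ (by omega)] at h1
  have h2 := hgD (K + (B + 1)) (by omega)
  have h3 := hM (K + (B + 1))
  omega

end Q291.MM
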