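import Pool.Agent.Q291.MM.Giants

/-! Giants exist at every scale. -/

namespace Q291.MM

open Set Filter MeasureTheory

/-- Upper tail of the Poisson law. -/
lemma poisson_tail {Ω : Type*} [MeasurableSpace Ω] (P : Measure Ω) [IsProbabilityMeasure P]
    (N : Ω → ℕ∞) (hN : Measurable N) (L : ℝ) (hL : 0 ≤ L)
    (hlaw : ∀ n : ℕ, P {ω | N ω = (n : ℕ∞)} =
      ENNReal.ofReal (Real.exp (-L) * L ^ n / (n.factorial : ℝ))) (M : ℕ) :
    P {ω | (M : ℕ∞) < N ω} ≤ ENNReal.ofReal (Real.exp L / 2 ^ M) := by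
  have hexp : ∀ x : ℝ, HasSum (fun n : ℕ => x ^ n / (n.factorial : ℝ)) (Real.exp x) := by
    intro x
    rw [Real.exp_eq_exp_ℝ]
    exact NormedSpace.expSeries_div_hasSum_exp x
  -- the probability of the complement
  have h1 : {ω | (M : ℕ∞) < N ω}ᶜ = ⋃ n ∈ Finset.range (M + 1), {ω | N ω = (n : ℕ∞)} := by
    ext ω
    rw [mem_compl_iff]
    simp only [mem_iUnion, Finset.mem_range, exists_prop]
    show (¬ (M : ℕ∞) < N ω) ↔ ∃ i : ℕ, i < M + 1 ∧ N ω = (i : ℕ∞)
    rw [not_lt]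
    constructor
    · intro h
      obtain ⟨n, hn⟩ := ENat.ne_top_iff_exists.1 (ne_top_of_le_ne_top (ENat.natCast_ne_top M) h)
      refine ⟨n, ?_, hn.symm⟩
      rw [← hn] at h
      have : n ≤ M := by exact_mod_cast h
      omega
    · rintro ⟨n, hn, h⟩
      rw [h]
      have : n ≤ M := by omega
      exact_mod_cast this
  have hmeas : ∀ n : ℕ, MeasurableSet {ω | N ω = (n : ℕ∞)} := fun n =>
    hN (measurableSet_singleton _)
  have h2 : P {ω | (M : ℕ∞) < N ω}ᶜ =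
      ENNReal.ofReal (∑ n ∈ Finset.range (M + 1), Real.exp (-L) * L ^ n / (n.factorial : ℝ)) := by
    rw [h1, measure_biUnion_finset]
    · rw [ENNReal.ofReal_sum_of_nonneg (fun n _ => by positivity)]
      exact Finset.sum_congr rfl fun n _ => hlaw n
    · intro i _ j _ hij
      show Disjoint _ _
      rw [Set.disjoint_left]
      intro ω h3 h4
      have h5 : N ω = (i : ℕ∞) := h3
      have h6 : N ω = (j : ℕ∞) := h4
      rw [h5] at h6
      exact hij (by exact_mod_cast h6)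
    · exact fun n _ => hmeas n
  have hmeasM : MeasurableSet {ω | (M : ℕ∞) < N ω} := by
    rw [← compl_compl {ω | (M : ℕ∞) < N ω}, h1]
    exact (Finset.measurableSet_biUnion _ fun n _ => hmeas n).compl
  have h3 : P {ω | (M : ℕ∞) < N ω} = 1 - P {ω | (M : ℕ∞) < N ω}ᶜ := by
    rw [← prob_compl_eq_one_sub hmeasM.compl, compl_compl]
  rw [h3, h2, ← ENNReal.ofReal_one, ← ENNReal.ofReal_sub _
    (Finset.sum_nonneg fun n _ => by positivity)]
  apply ENNReal.ofReal_le_ofReal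
  -- comparison of the tails
  have h4 : ∀ x : ℝ, (∑ n ∈ Finset.range (M + 1), x ^ n / (n.factorial : ℝ)) +
      ∑' n : ℕ, x ^ (n + (M + 1)) / ((n + (M + 1)).factorial : ℝ) = Real.exp x := fun x => by
    rw [← (hexp x).tsum_eq]
    exact (hexp x).summable.sum_add_tsum_nat_add (M + 1)
  have hsum : ∀ x : ℝ, Summable fun n : ℕ => x ^ (n + (M + 1)) / ((n + (M + 1)).factorial : ℝ) :=
    fun x => (summable_nat_add_iff (M + 1)).2 (hexp x).summable
  have h5 : 2 ^ (M + 1) * ∑' n : ℕ, L ^ (n + (M + 1)) / ((n + (M + 1)).factorial : ℝ) ≤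
      ∑' n : ℕ, (2 * L) ^ (n + (M + 1)) / ((n + (M + 1)).factorial : ℝ) := by
    rw [← tsum_mul_left]
    apply (hsum L).mul_left _ |>.tsum_le_tsum _ (hsum (2 * L))
    intro n
    rw [← mul_div_assoc]
    apply div_le_div_of_nonneg_right _ (by positivity)
    rw [mul_pow]
    apply mul_le_mul_of_nonneg_right _ (by positivity)
    exact pow_le_pow_right₀ (by norm_num) (by omega)
  have h6 : ∑' n : ℕ, (2 * L) ^ (n + (M + 1)) / ((n + (M + 1)).factorial : ℝ) ≤
      Real.exp (2 * L) := by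
    rw [← h4 (2 * L)]
    have : 0 ≤ ∑ n ∈ Finset.range (M + 1), (2 * L) ^ n / (n.factorial : ℝ) :=
      Finset.sum_nonneg fun n _ => by positivity
    linarith
  have h7 : ∑ n ∈ Finset.range (M + 1), Real.exp (-L) * L ^ n / (n.factorial : ℝ) =
      Real.exp (-L) * ∑ n ∈ Finset.range (M + 1), L ^ n / (n.factorial : ℝ) := by
    rw [Finset.mul_sum]
    exact Finset.sum_congr rfl fun n _ => by rw [mul_div_assoc]
  rw [h7]
  have h8 := h4 L
  obtain ⟨T, hT⟩ : ∃ T, T = ∑' n : ℕ, L ^ (n + (M + 1)) / ((n + (M + 1)).factorial : ℝ) :=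
    ⟨_, rfl⟩
  have hT0 : 0 ≤ T := by rw [hT]; exact tsum_nonneg fun n => by positivity
  rw [← hT] at h5 h8
  have h9 : Real.exp (-L) * Real.exp L = 1 := by rw [← Real.exp_add]; simp
  have h10 : 1 - Real.exp (-L) * ∑ n ∈ Finset.range (M + 1), L ^ n / (n.factorial : ℝ) =
      Real.exp (-L) * T := by
    rw [← h9, ← h8]; ring
  rw [h10, le_div_iff₀ (by positivity)]
  have h11 : 2 ^ M * T ≤ Real.exp (2 * L) := by
    have : 2 ^ (M + 1) * T = 2 * (2 ^ M * T) := by ring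
    have h12 : 0 ≤ 2 ^ M * T := by positivity
    linarith
  calc Real.exp (-L) * T * 2 ^ M = Real.exp (-L) * (2 ^ M * T) := by ring
    _ ≤ Real.exp (-L) * Real.exp (2 * L) := mul_le_mul_of_nonneg_left h11 (Real.exp_pos _).le
    _ = Real.exp L := by rw [← Real.exp_add]; congr 1; ring

lemma exp_le_two_pow {L : ℝ} {n : ℕ} (h : 4 * L ≤ n) : Real.exp L ≤ 2 ^ n := by
  rw [← Real.rpow_natCast, Real.rpow_def_of_pos (by norm_num)]
  apply Real.exp_le_exp.2
  have hl : (1:ℝ) / 4 ≤ Real.log 2 := by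
    have := Real.log_two_gt_d9
    linarith
  have hc : (0:ℝ) ≤ (n : ℝ) := by positivity
  nlinarith

section

variable {Ω : Type*} [MeasurableSpace Ω] {P : Measure Ω} [IsProbabilityMeasure P] {d : ℕ}
  {μ : Measure ℕ} [IsProbabilityMeasure μ] {Q : Ω → Set (EuclideanSpace ℝ (Fin d))}
  {D : Ω → EuclideanSpace ℝ (Fin d) → ℕ}

/-- the volume of the unit ball -/
noncomputable def kap (d : ℕ) : ℝ :=
  (volume (Metric.ball (0 : EuclideanSpace ℝ (Fin d)) 1)).toReal

lemma kap_pos (d : ℕ) : 0 < kap d :=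
  ENNReal.toReal_pos (Metric.measure_ball_pos volume _ one_pos).ne' measure_ball_lt_top.ne

lemma vol_ball (hd : 1 ≤ d) (k : ℕ) :
    volume (Metric.ball (0 : EuclideanSpace ℝ (Fin d)) (2 ^ k)) =
      ENNReal.ofReal (kap d * 2 ^ (d * k)) := by
  have : Nonempty (Fin d) := ⟨⟨0, hd⟩⟩
  rw [Measure.addHaar_ball volume _ (by positivity)]
  rw [finrank_euclideanSpace, Fintype.card_fin]
  unfold kap
  rw [mul_comm (ENNReal.toReal _), ENNReal.ofReal_mul (by positivity),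
    ENNReal.ofReal_toReal measure_ball_lt_top.ne, ← pow_mul, mul_comm k d]

/-- the marked points of the ball of radius `2 ^ k` with degree in `T` -/
lemma inten (hd : 1 ≤ d) (μ : Measure ℕ) [IsProbabilityMeasure μ] (k : ℕ) (T : Set ℕ) :
    (volume.prod μ) (Metric.ball (0 : EuclideanSpace ℝ (Fin d)) (2 ^ k) ×ˢ T) =
      ENNReal.ofReal (kap d * 2 ^ (d * k) * (μ T).toReal) := by
  rw [Measure.prod_prod, vol_ball hd, ENNReal.ofReal_mul (p := kap d * 2 ^ (d * k))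
    (mul_nonneg (kap_pos d).le (by positivity)), ENNReal.ofReal_toReal (measure_ne_top _ _)]

lemma inten_toReal (hd : 1 ≤ d) (μ : Measure ℕ) [IsProbabilityMeasure μ] (k : ℕ) (T : Set ℕ) :
    ((volume.prod μ) (Metric.ball (0 : EuclideanSpace ℝ (Fin d)) (2 ^ k) ×ˢ T)).toReal =
      kap d * 2 ^ (d * k) * (μ T).toReal := by
  rw [inten hd, ENNReal.toReal_ofReal]
  have := (kap_pos d).le
  positivity

/-- the number of points allowed in the ball of radius `2 ^ (k + 3)` -/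
noncomputable def Mk (d k : ℕ) : ℕ := ⌈4 * (kap d * 2 ^ (d * (k + 3)))⌉₊ + k

lemma Mk_mono (d : ℕ) : Monotone (Mk d) := by
  intro a b hab
  unfold Mk
  have := (kap_pos d).le
  gcongr
  norm_num

lemma le_Mk (d k : ℕ) : k ≤ Mk d k := by unfold Mk; omega

lemma eventually_count (hd : 1 ≤ d) (h : IsMarkedPoisson P μ Q D) :
    ∀ᵐ ω ∂P, ∀ᶠ k in atTop, {x ∈ Q ω | ‖x‖ < 2 ^ (k + 3)}.encard ≤ Mk d k := by
  have hset : ∀ (k : ℕ) (ω : Ω), {x ∈ Q ω | (x, D ω x) ∈
      Metric.ball (0 : EuclideanSpace ℝ (Fin d)) (2 ^ (k + 3)) ×ˢ (univ : Set ℕ)} =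
      {x ∈ Q ω | ‖x‖ < 2 ^ (k + 3)} := by
    intro k ω
    ext x
    show x ∈ Q ω ∧ _ ↔ x ∈ Q ω ∧ _
    simp
  have hms : ∀ k : ℕ, MeasurableSet
      (Metric.ball (0 : EuclideanSpace ℝ (Fin d)) (2 ^ (k + 3)) ×ˢ (univ : Set ℕ)) := fun k =>
    Metric.isOpen_ball.measurableSet.prod MeasurableSet.univ
  have key : ∀ k : ℕ, P {ω | (Mk d k : ℕ∞) < {x ∈ Q ω | ‖x‖ < 2 ^ (k + 3)}.encard} ≤
      ENNReal.ofReal ((1 / 2) ^ k) := by
    intro k
    have h0 : 0 ≤ kap d * 2 ^ (d * (k + 3)) := mul_nonneg (kap_pos d).le (by positivity)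
    have h1 := poisson_tail P (fun ω => {x ∈ Q ω | (x, D ω x) ∈
      Metric.ball (0 : EuclideanSpace ℝ (Fin d)) (2 ^ (k + 3)) ×ˢ (univ : Set ℕ)}.encard)
      (h.measurable_count _ (hms k)) (kap d * 2 ^ (d * (k + 3))) h0 (fun n => by
        rw [h.law_count _ (hms k) (by rw [inten hd]; exact ENNReal.ofReal_ne_top) n,
          inten_toReal hd]
        simp) (Mk d k)
    simp only [hset] at h1
    refine h1.trans (ENNReal.ofReal_le_ofReal ?_)
    rw [div_le_iff₀ (by positivity)]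
    unfold Mk
    rw [pow_add]
    have h2 : (4:ℝ) * (kap d * 2 ^ (d * (k + 3))) ≤ ⌈4 * (kap d * 2 ^ (d * (k + 3)))⌉₊ :=
      Nat.le_ceil _
    have h3 : Real.exp (kap d * 2 ^ (d * (k + 3))) ≤
        2 ^ ⌈4 * (kap d * 2 ^ (d * (k + 3)))⌉₊ := exp_le_two_pow h2
    have h4 : (1 / 2 : ℝ) ^ k * (2 ^ ⌈4 * (kap d * 2 ^ (d * (k + 3)))⌉₊ * 2 ^ k) =
        2 ^ ⌈4 * (kap d * 2 ^ (d * (k + 3)))⌉₊ := by
      have : (1 / 2 : ℝ) ^ k * 2 ^ k = 1 := by rw [← mul_pow]; norm_num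
      calc _ = 2 ^ ⌈4 * (kap d * 2 ^ (d * (k + 3)))⌉₊ * ((1 / 2 : ℝ) ^ k * 2 ^ k) := by ring
        _ = _ := by rw [this, mul_one]
    rw [h4]
    exact h3
  have hsum : ∑' k : ℕ, P {ω | (Mk d k : ℕ∞) < {x ∈ Q ω | ‖x‖ < 2 ^ (k + 3)}.encard} ≠ ⊤ := by
    refine ne_top_of_le_ne_top ?_ (ENNReal.tsum_le_tsum key)
    rw [← ENNReal.ofReal_tsum_of_nonneg (fun k => by positivity) summable_geometric_two]
    exact ENNReal.ofReal_ne_top
  filter_upwards [ae_eventually_notMem hsum] with ω hω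
  filter_upwards [hω] with k hk
  exact not_lt.1 hk

omit [IsProbabilityMeasure P] in
lemma eventually_giant (hd : 1 ≤ d) (h : IsMarkedPoisson P μ Q D) {c : ℝ} (hc : 0 < c)
    (hμ : ∀ k, c * (3 / 4) ^ k ≤ (μ (Ici (Mk d k))).toReal) :
    ∀ᵐ ω ∂P, ∀ᶠ k in atTop, ∃ x ∈ Q ω, ‖x‖ < 2 ^ k ∧ Mk d k ≤ D ω x := by
  have hms : ∀ k : ℕ, MeasurableSet
      (Metric.ball (0 : EuclideanSpace ℝ (Fin d)) (2 ^ k) ×ˢ Ici (Mk d k)) := fun k =>
    Metric.isOpen_ball.measurableSet.prod measurableSet_Ici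
  have hκ := kap_pos d
  have key : ∀ k : ℕ, P {ω | ¬ ∃ x ∈ Q ω, ‖x‖ < 2 ^ k ∧ Mk d k ≤ D ω x} ≤
      ENNReal.ofReal ((1 / (kap d * c)) * (2 / 3) ^ k) := by
    intro k
    have h1 := h.law_count _ (hms k) (by rw [inten hd]; exact ENNReal.ofReal_ne_top) 0
    rw [inten_toReal hd] at h1
    have h2 : {ω | ¬ ∃ x ∈ Q ω, ‖x‖ < 2 ^ k ∧ Mk d k ≤ D ω x} ⊆ {ω | {x ∈ Q ω | (x, D ω x) ∈
        Metric.ball (0 : EuclideanSpace ℝ (Fin d)) (2 ^ k) ×ˢ Ici (Mk d k)}.encard =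
          ((0 : ℕ) : ℕ∞)} := by
      intro ω hω
      show _ = _
      rw [Nat.cast_zero, Set.encard_eq_zero, Set.eq_empty_iff_forall_notMem]
      rintro x ⟨hx1, hx2⟩
      apply hω
      refine ⟨x, hx1, ?_, ?_⟩
      · have := hx2.1
        simpa using this
      · exact hx2.2
    refine (measure_mono h2).trans ?_
    rw [h1]
    apply ENNReal.ofReal_le_ofReal
    simp only [pow_zero, mul_one, Nat.factorial_zero, Nat.cast_one, div_one]
    -- lower bound for the mean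
    obtain ⟨x, hx⟩ : ∃ x, x = kap d * 2 ^ (d * k) * (μ (Ici (Mk d k))).toReal := ⟨_, rfl⟩
    rw [← hx]
    have h3 : kap d * c * (3 / 2) ^ k ≤ x := by
      rw [hx]
      have h4 : (2:ℝ) ^ k ≤ 2 ^ (d * k) :=
        pow_le_pow_right₀ (by norm_num) (Nat.le_mul_of_pos_left k hd)
      calc kap d * c * (3 / 2) ^ k = kap d * 2 ^ k * (c * (3 / 4) ^ k) := by
            have : (3 / 2 : ℝ) ^ k = 2 ^ k * (3 / 4) ^ k := by rw [← mul_pow]; norm_num
            rw [this]; ring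
        _ ≤ kap d * 2 ^ (d * k) * (μ (Ici (Mk d k))).toReal := by
            apply mul_le_mul (mul_le_mul_of_nonneg_left h4 hκ.le) (hμ k) (by positivity)
              (by positivity)
    have h5 : 0 < kap d * c * (3 / 2) ^ k := by positivity
    have h6 : x ≤ Real.exp x := by
      have := Real.add_one_le_exp x
      linarith
    rw [Real.exp_neg]
    have h7 : kap d * c * (3 / 2) ^ k ≤ Real.exp x := h3.trans h6
    calc (Real.exp x)⁻¹ ≤ (kap d * c * (3 / 2) ^ k)⁻¹ := inv_anti₀ h5 h7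
      _ = 1 / (kap d * c) * (2 / 3) ^ k := by
        rw [mul_inv, one_div, ← inv_pow]
        norm_num
  have hsum : ∑' k : ℕ, P {ω | ¬ ∃ x ∈ Q ω, ‖x‖ < 2 ^ k ∧ Mk d k ≤ D ω x} ≠ ⊤ := by
    refine ne_top_of_le_ne_top ?_ (ENNReal.tsum_le_tsum key)
    rw [← ENNReal.ofReal_tsum_of_nonneg (fun k => by positivity)
      ((summable_geometric_of_lt_one (by norm_num) (by norm_num)).mul_left _)]
    exact ENNReal.ofReal_ne_top
  filter_upwards [ae_eventually_notMem hsum] with ω hω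
  filter_upwards [hω] with k hk
  by_contra hne
  exact hk hne

/-- Degrees with a heavy tail: almost surely there is a stable multi-matching, and every stable
multi-matching has an infinite component. -/
theorem percolates (hd : 1 ≤ d) (h : IsMarkedPoisson P μ Q D) {c : ℝ} (hc : 0 < c)
    (hμ : ∀ k, c * (3 / 4) ^ k ≤ (μ (Ici (Mk d k))).toReal) :
    ∀ᵐ ω ∂P, (∃ G : SimpleGraph (Q ω), IsStable (fun x : Q ω => D ω x) G) ∧
      ∀ G : SimpleGraph (Q ω), IsStable (fun x : Q ω => D ω x) G → HasInfiniteComponent G := by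
  filter_upwards [eventually_count hd h, eventually_giant hd h hc hμ] with ω h1 h2
  constructor
  · apply exists_stable
    intro x r
    -- a large ball
    obtain ⟨K, hK⟩ := eventually_atTop.1 h1
    obtain ⟨m, hm⟩ : ∃ m : ℕ, ‖(x : EuclideanSpace ℝ (Fin d))‖ + r < 2 ^ m :=
      pow_unbounded_of_one_lt _ (by norm_num)
    have h3 := hK (max K m) (le_max_left _ _)
    have h4 : (Subtype.val '' {y : Q ω | dist x y ≤ r}) ⊆
        {x ∈ Q ω | ‖x‖ < 2 ^ (max K m + 3)} := by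
      rintro _ ⟨z, hz, rfl⟩
      refine ⟨z.2, ?_⟩
      have hz' : dist (x : EuclideanSpace ℝ (Fin d)) z ≤ r := hz
      have h5 : ‖(z : EuclideanSpace ℝ (Fin d))‖ ≤ ‖(x : EuclideanSpace ℝ (Fin d))‖ +
          dist (x : EuclideanSpace ℝ (Fin d)) z := by
        rw [dist_eq_norm, ← norm_neg ((x : EuclideanSpace ℝ (Fin d)) - z)]
        calc ‖(z : EuclideanSpace ℝ (Fin d))‖ =
              ‖(x : EuclideanSpace ℝ (Fin d)) + -((x : EuclideanSpace ℝ (Fin d)) - z)‖ := by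
              congr 1; abel
          _ ≤ _ := norm_add_le _ _
      have h6 : (2:ℝ) ^ m ≤ 2 ^ (max K m + 3) :=
        pow_le_pow_right₀ (by norm_num) (by have := le_max_right K m; omega)
      linarith
    have h7 : (Subtype.val '' {y : Q ω | dist x y ≤ r}).Finite := by
      apply Set.Finite.subset _ h4
      exact Set.finite_of_encard_le_coe h3
    exact Set.Finite.of_finite_image h7 Subtype.val_injective.injOn
  · intro G hG
    obtain ⟨K, hK⟩ := eventually_atTop.1 (h1.and h2)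
    exact infinite_of_giants (Q ω) (D ω) (Mk d) (Mk_mono d) (le_Mk d) K
      (fun k hk => (hK k hk).1) (fun k hk => (hK k hk).2) G hG

end

end Q291.MM
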